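import Mathlib
import Pool.Agent.Helper16.QR.Fin

/-!
# Quasiminimality of the binary reduct

For every countable family of binary relations `f i (x, y) = 0`, `f i` entire of finite order in
each variable, together with arbitrary entire relations restricted to linked tuples, every set
which is invariant under the automorphisms fixing a countable set is countable or cocountable
along every entire curve.
-/

set_option autoImplicit false

namespace Pool.Agent.Results.MP_a12702_lc.BinaryReduct

open Pool.Agent.Helper16.QR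

theorem result (f : ℕ → ℂ × ℂ → ℂ) (hf : ∀ i, AnalyticOnNhd ℂ (f i) Set.univ)
    (hfo : ∀ i, FiniteOrderEach (f i)) (w : ℕ → ℕ) (G : ∀ i, (Fin (w i) → ℂ) → ℂ)
    (hG : ∀ i, AnalyticOnNhd ℂ (G i) Set.univ) (A : Set ℂ) (hA : A.Countable) (n : ℕ)
    (S : Set (Fin n → ℂ))
    (hS : ∀ σ : Equiv.Perm ℂ, IsAut f w G σ → (∀ a ∈ A, σ a = a) →
      ∀ v, v ∈ S ↔ (fun j => σ (v j)) ∈ S)
    (γ : ℂ → Fin n → ℂ) (hγ : AnalyticOnNhd ℂ γ Set.univ) :
    {t | γ t ∈ S}.Countable ∨ {t | γ t ∉ S}.Countable :=
  QR.dichotomy hf hfo hG hA hS γ hγ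

end Pool.Agent.Results.MP_a12702_lc.BinaryReduct
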