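import Pool.Agent.EXK2.Fin
import Pool.Agent.EXK.KDefinite

/-!
# MP_a12702_lc, partial answer to Q1 (exact exponential-algebraic closedness in codimension one)

`V ⊆ ℂ^n × (ℂ^*)^n` irreducible of dimension `n`, the closure of its projection to `ℂ^n` is a
hypersurface `F = 0`. The fibre of `V` over a general point of the hypersurface is a curve in
`(ℂ^*)^n`; its points at infinity have order vectors `v ∈ ℤ^n`. If for ONE order vector `v ≠ 0` the
hypersurface has a branch at infinity over `i ℝ^n` in the direction `v` whose displacement `τ` has real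
part tending to `-∞` like a power of `T` (`Growth F v`, e.g. if the leading form of `F` is not
hyperbolic in the direction `v`), the points `(z, exp z)` of `V` are Zariski dense in `V`.
-/

set_option autoImplicit false

namespace Pool.Agent.Results.MP_a12702_lc.CodimensionOneGrowth

open MvPolynomial

/-- `v` is the vector of the orders of `y_1, .., y_n` for some discrete valuation `w` of `ℂ[x, y] / P`
which is trivial on `ℂ[x] / (F)`. -/
def OrderVector {n : ℕ} (P : Ideal (MvPolynomial (Fin n ⊕ Fin n) ℂ)) (F : MvPolynomial (Fin n) ℂ)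
    (v : Fin n → ℤ) : Prop :=
  ∃ w : Valuation (MvPolynomial (Fin n ⊕ Fin n) ℂ) (WithZero (Multiplicative ℤ)),
    (∀ f, w f = 0 ↔ f ∈ P) ∧
    (∀ f : MvPolynomial (Fin n) ℂ, ¬ F ∣ f → w (rename Sum.inl f) = 1) ∧
    ∀ j, w (X (Sum.inr j)) = WithZero.exp (-(v j))

/-- For all `y` in some nonempty open set and arbitrarily large `T` there is `τ` with
`F(i T y + τ v) = 0` and `Re τ ≤ -T^ε (1 + |τ| / T)`. -/
def Growth {n : ℕ} (F : MvPolynomial (Fin n) ℂ) (v : Fin n → ℤ) : Prop :=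
  ∃ (ε : ℝ) (O : Set (Fin n → ℝ)), 0 < ε ∧ IsOpen O ∧ O.Nonempty ∧ ∀ y ∈ O,
    ∃ᶠ T : ℝ in Filter.atTop, ∃ τ : ℂ,
      eval (fun j => Complex.I * T * y j + τ * v j) F = 0 ∧ τ.re ≤ -T ^ ε * (1 + ‖τ‖ / T)

/-- The form `L` is not hyperbolic in the direction `v`: on some real line in the direction `v` it has
a nonreal zero but does not vanish identically. -/
def NonHyperbolic {n : ℕ} (L : MvPolynomial (Fin n) ℂ) (v : Fin n → ℤ) : Prop :=
  ∃ (y : Fin n → ℝ) (ρ ρ' : ℂ), ρ.im ≠ 0 ∧ eval (fun j => (y j : ℂ) + ρ * v j) L = 0 ∧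
    eval (fun j => (y j : ℂ) + ρ' * v j) L ≠ 0

theorem result {n : ℕ} (P : Ideal (MvPolynomial (Fin n ⊕ Fin n) ℂ)) (hP : P.IsPrime)
    (hY : ∀ j : Fin n, (X (Sum.inr j) : MvPolynomial (Fin n ⊕ Fin n) ℂ) ∉ P)
    (hdim : Algebra.trdeg ℂ (MvPolynomial (Fin n ⊕ Fin n) ℂ ⧸ P) = n)
    (F : MvPolynomial (Fin n) ℂ) (hF0 : F ≠ 0)
    (hF : ∀ f : MvPolynomial (Fin n) ℂ, rename Sum.inl f ∈ P ↔ F ∣ f)
    (L : MvPolynomial (Fin n) ℂ) (hLF : L = homogeneousComponent F.totalDegree F)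
    (hL : (∃ v : Fin n → ℤ, v ≠ 0 ∧ OrderVector P F v ∧ (Growth F v ∨ NonHyperbolic L v)) ∨
      (∀ v : Fin n → ℤ, v ≠ 0 → Growth F v ∨ NonHyperbolic L v) ∨
      (2 ≤ n ∧ ∀ x : Fin n → ℝ, x ≠ 0 → eval (fun j => (x j : ℂ)) L ≠ 0) ∨
      ∃ (G R : MvPolynomial (Fin n) ℂ) (r : ℕ), L = G * R ∧ G.IsHomogeneous r ∧ Irreducible G ∧
        ¬ G ∣ map (starRingEnd ℂ) G ∧
        ∀ v : Fin n → ℤ, v ≠ 0 → ∃ x : Fin n → ℂ, eval (fun j => x j + v j) G ≠ eval x G)
    (h : MvPolynomial (Fin n ⊕ Fin n) ℂ) (hh : h ∉ P) :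
    ∃ z : Fin n → ℂ, (∀ f ∈ P, eval (Sum.elim z fun j => Complex.exp (z j)) f = 0) ∧
      eval (Sum.elim z fun j => Complex.exp (z j)) h ≠ 0 := by
  subst hLF
  have hgr : ∀ v : Fin n → ℤ, Growth F v ∨ NonHyperbolic (homogeneousComponent F.totalDegree F) v →
      Pool.Agent.EXK2.Growth F v := by
    intro v hv
    rcases hv with hv | hv
    · exact hv
    · exact Pool.Agent.EXK2.growth_of_nonhyp F v hv
  rcases hL with ⟨v, hv, ⟨w, hw, hwx, hwv⟩, hG⟩ | hL | ⟨hn, hL⟩ | hL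
  · exact Pool.Agent.EXK2.main2 P hP hY hdim F hF0 hF w hw hwx v hv hwv (hgr v hG) h hh
  · exact Pool.Agent.EXK2.main2_all P hP hY hdim F hF0 hF (fun v hv => hgr v (hL v hv)) h hh
  · have hd : 1 ≤ F.totalDegree := by
      rw [Nat.one_le_iff_ne_zero]
      intro h0
      rw [totalDegree_eq_zero_iff_eq_C] at h0
      have h1 : rename Sum.inl F ∈ P := (hF F).2 dvd_rfl
      have hc : coeff 0 F ≠ 0 := by
        intro h2
        rw [h2, C_0] at h0
        exact hF0 h0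
      rw [h0, rename_C] at h1
      apply hP.ne_top
      rw [Ideal.eq_top_iff_one]
      have h2 := P.mul_mem_left (C (coeff 0 F)⁻¹) h1
      rwa [← C_mul, inv_mul_cancel₀ hc, C_1] at h2
    exact Pool.Agent.EXK.main P hP hY hdim F hF0 hF (Or.inl fun v hv =>
      Pool.Agent.EXK.nonHypC_of_definite hn hd _ (homogeneousComponent_isHomogeneous _ _) hL v hv)
      h hh
  · exact Pool.Agent.EXK.main P hP hY hdim F hF0 hF (Or.inr hL) h hh

end Pool.Agent.Results.MP_a12702_lc.CodimensionOneGrowth
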