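import Pool.Agent.EXG.Fin

/-!
# MP_a12702_lc, partial answer to Q1 (exact exponential-algebraic closedness in codimension one)

`V ⊆ ℂ^n × (ℂ^*)^n` irreducible of dimension `n`, the closure of its projection to `ℂ^n` is a
hypersurface `F = 0`. If the leading form of `F` has an irreducible factor of multiplicity one without
nonzero integer period, the points `(z, exp z)` of `V` are Zariski dense in `V`. There is no condition on
`V` itself, and no condition on the sign or the reality of the leading form.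
-/

set_option autoImplicit false

namespace Pool.Agent.Results.MP_a12702_lc.CodimensionOneSimpleFactor

open MvPolynomial

theorem result {n : ℕ} (hn : 2 ≤ n)
    (P : Ideal (MvPolynomial (Fin n ⊕ Fin n) ℂ)) (hP : P.IsPrime)
    (hY : ∀ j : Fin n, (X (Sum.inr j) : MvPolynomial (Fin n ⊕ Fin n) ℂ) ∉ P)
    (hdim : Algebra.trdeg ℂ (MvPolynomial (Fin n ⊕ Fin n) ℂ ⧸ P) = n)
    (F : MvPolynomial (Fin n) ℂ) (hF0 : F ≠ 0)
    (hF : ∀ f : MvPolynomial (Fin n) ℂ, rename Sum.inl f ∈ P ↔ F ∣ f)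
    (G R : MvPolynomial (Fin n) ℂ) (r : ℕ)
    (hL : homogeneousComponent F.totalDegree F = G * R) (hGh : G.IsHomogeneous r)
    (hG : Irreducible G) (hGR : ¬ G ∣ R)
    (hper : ∀ v : Fin n → ℤ, v ≠ 0 → ∃ x : Fin n → ℂ, eval (fun j => x j + v j) G ≠ eval x G)
    (h : MvPolynomial (Fin n ⊕ Fin n) ℂ) (hh : h ∉ P) :
    ∃ z : Fin n → ℂ, (∀ f ∈ P, eval (Sum.elim z fun j => Complex.exp (z j)) f = 0) ∧
      eval (Sum.elim z fun j => Complex.exp (z j)) h ≠ 0 := by
  obtain ⟨m, rfl⟩ : ∃ m, n = m + 1 := ⟨n - 1, by omega⟩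
  exact Pool.Agent.EXG.mainZ (by omega) P hP hY hdim F hF0 hF G R r hL hGh hG hGR hper h hh

end Pool.Agent.Results.MP_a12702_lc.CodimensionOneSimpleFactor
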