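import Pool.Agent.EXK.KFin
import Pool.Agent.EXK.KDefinite

/-!
# MP_a12702_lc, partial answer to Q1 (exact exponential-algebraic closedness in codimension one)

`V ⊆ ℂ^n × (ℂ^*)^n` irreducible of dimension `n`, the closure of its projection to `ℂ^n` is a
hypersurface `F = 0`, `L` is the leading form of `F`. If in every integer direction `v ≠ 0` some real
line on which `L` is not identically zero contains (after complexification) a nonreal zero of `L`, the
points `(z, exp z)` of `V` are Zariski dense in `V`. The condition holds if `L` has no nonzero real zero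
(`n ≥ 2`), and if `L` has an irreducible factor which is not proportional to a real form and has no
integer period.
-/

set_option autoImplicit false

namespace Pool.Agent.Results.MP_a12702_lc.ExactCodimensionOne

open MvPolynomial

theorem result {n : ℕ} (P : Ideal (MvPolynomial (Fin n ⊕ Fin n) ℂ)) (hP : P.IsPrime)
    (hY : ∀ j : Fin n, (X (Sum.inr j) : MvPolynomial (Fin n ⊕ Fin n) ℂ) ∉ P)
    (hdim : Algebra.trdeg ℂ (MvPolynomial (Fin n ⊕ Fin n) ℂ ⧸ P) = n)
    (F : MvPolynomial (Fin n) ℂ) (hF0 : F ≠ 0)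
    (hF : ∀ f : MvPolynomial (Fin n) ℂ, rename Sum.inl f ∈ P ↔ F ∣ f)
    (L : MvPolynomial (Fin n) ℂ) (hLF : L = homogeneousComponent F.totalDegree F)
    (hL : (∀ v : Fin n → ℤ, v ≠ 0 → ∃ (y : Fin n → ℝ) (ρ ρ' : ℂ), ρ.im ≠ 0 ∧
        eval (fun j => (y j : ℂ) + ρ * v j) L = 0 ∧ eval (fun j => (y j : ℂ) + ρ' * v j) L ≠ 0) ∨
      (2 ≤ n ∧ ∀ x : Fin n → ℝ, x ≠ 0 → eval (fun j => (x j : ℂ)) L ≠ 0) ∨
      ∃ (G R : MvPolynomial (Fin n) ℂ) (r : ℕ), L = G * R ∧ G.IsHomogeneous r ∧ Irreducible G ∧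
        ¬ G ∣ map (starRingEnd ℂ) G ∧
        ∀ v : Fin n → ℤ, v ≠ 0 → ∃ x : Fin n → ℂ, eval (fun j => x j + v j) G ≠ eval x G)
    (h : MvPolynomial (Fin n ⊕ Fin n) ℂ) (hh : h ∉ P) :
    ∃ z : Fin n → ℂ, (∀ f ∈ P, eval (Sum.elim z fun j => Complex.exp (z j)) f = 0) ∧
      eval (Sum.elim z fun j => Complex.exp (z j)) h ≠ 0 := by
  subst hLF
  refine Pool.Agent.EXK.main P hP hY hdim F hF0 hF ?_ h hh
  rcases hL with hL | ⟨hn, hL⟩ | hL
  · exact Or.inl hL
  · left
    have hd : 1 ≤ F.totalDegree := by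
      rw [Nat.one_le_iff_ne_zero]
      intro h0
      rw [totalDegree_eq_zero_iff_eq_C] at h0
      have h1 : rename Sum.inl F ∈ P := (hF F).2 dvd_rfl
      have hc : coeff 0 F ≠ 0 := by
        intro h2
        rw [h2, C_0] at h0
        exact hF0 h0
      rw [h0, rename_C] at h1
      apply hP.ne_top
      rw [Ideal.eq_top_iff_one]
      have h2 := P.mul_mem_left (C (coeff 0 F)⁻¹) h1
      rwa [← C_mul, inv_mul_cancel₀ hc, C_1] at h2
    exact fun v hv => Pool.Agent.EXK.nonHypC_of_definite hn hd _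
      (homogeneousComponent_isHomogeneous _ _) hL v hv
  · exact Or.inr hL

end Pool.Agent.Results.MP_a12702_lc.ExactCodimensionOne
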